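import Pool.Agent.Helper72.MK.GoalsT

/-! Packet MK-ARS: scaling of the area of sections. -/

open MeasureTheory Set
open Pool.Agent.Helper72.MK

namespace Pool.Agent.Helper28.MK

theorem ars : ARSStmt := by
  intro L u v c d hc hd
  unfold Ar
  set f : (Fin 2 → ℝ) →ₗ[ℝ] (Fin 2 → ℝ) := Matrix.toLin' (Matrix.diagonal ![c, d]) with hf
  have hdet : LinearMap.det f = c * d := by
    rw [hf, LinearMap.det_toLin', Matrix.det_diagonal]
    simp [Fin.prod_univ_two]
  have hfy : ∀ y : Fin 2 → ℝ, f y = ![c * y 0, d * y 1] := by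
    intro y
    rw [hf, Matrix.toLin'_apply]
    funext i
    rw [Matrix.mulVec_diagonal]
    fin_cases i <;> simp
  have hset : {y : Fin 2 → ℝ | y 0 • (c • u) + y 1 • (d • v) ∈ L} =
      f ⁻¹' {y : Fin 2 → ℝ | y 0 • u + y 1 • v ∈ L} := by
    ext y
    simp only [Set.mem_ofPred_eq, Set.mem_preimage, hfy, Matrix.cons_val_zero, Matrix.cons_val_one,
      smul_smul]
    rw [mul_comm c, mul_comm d]
  have hne : LinearMap.det f ≠ 0 := by
    rw [hdet]; exact mul_ne_zero hc hd
  rw [hset, Measure.addHaar_preimage_linearMap volume hne, hdet, ENNReal.toReal_mul,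
    ENNReal.toReal_ofReal (abs_nonneg _), abs_inv, abs_mul, mul_inv]

end Pool.Agent.Helper28.MK
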