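import Pool.Agent.Helper72.MK.Goals

/-! Packet MK-EQV: equivariance of the diagonals. -/

open MeasureTheory Set
open Pool.Agent.Helper72.MK Pool.Agent.Helper47.AQ
open scoped Quaternion

namespace Pool.Agent.Helper28.MK

theorem ar_neg_right (hA : ARSStmt) (L : Set (Fin 3 → ℝ)) (u v : Fin 3 → ℝ) :
    Ar L u (-v) = Ar L u v := by
  have h := hA L u v 1 (-1) one_ne_zero (by norm_num)
  simpa using h

theorem eqv (hF : FRMStmt) (hA : ARSStmt) : EQVStmt := by
  intro K t ht g hg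
  obtain ⟨-, -, -, ⟨w1, w2, w3⟩, ⟨i1, i2, i3⟩⟩ := hF.2 g hg
  have ht0 : t ≠ 0 := ht.ne'
  have hti0 : t⁻¹ ≠ 0 := inv_ne_zero ht0
  set V := (volume (dpol K)).toReal with hV
  -- the frame after `ω`
  have hn1 : n1 t⁻¹ (g * om) = (-t⁻¹) • n2 t g := by
    unfold n1 n2
    rw [w1, w2, smul_sub, smul_smul, smul_neg, neg_mul, inv_mul_cancel₀ ht0, neg_smul, neg_smul,
      one_smul]
    abel
  have hn2 : n2 t⁻¹ (g * om) = t⁻¹ • n1 t g := by
    unfold n1 n2
    rw [w1, w2, smul_add, smul_smul, smul_neg, inv_mul_cancel₀ ht0, one_smul]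
    abel
  have hm1 : m1 t⁻¹ (g * om) = (-t) • m2 t g := by
    unfold m1 m2
    rw [w1, w2, inv_inv, smul_comm (-t) (1 / 2 : ℝ), smul_sub (-t), smul_smul (-t), neg_mul,
      mul_inv_cancel₀ ht0, neg_smul, neg_smul, one_smul, smul_neg]
    congr 1
    abel
  have hm2 : m2 t⁻¹ (g * om) = t • m1 t g := by
    unfold m1 m2
    rw [w1, w2, inv_inv, smul_comm t (1 / 2 : ℝ), smul_add t, smul_smul t,
      mul_inv_cancel₀ ht0, one_smul, smul_neg]
    congr 1
    abel
  have a1 : Ar (dpol K) (m1 t⁻¹ (g * om)) (q3 (g * om)) = t⁻¹ * Ar (dpol K) (m2 t g) (q3 g) := by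
    rw [hm1, w3]
    have h := hA (dpol K) (m2 t g) (q3 g) (-t) 1 (neg_ne_zero.2 ht0) one_ne_zero
    rw [one_smul, abs_one, inv_one, mul_one, abs_neg, abs_of_pos ht] at h
    exact h
  have a2 : Ar (dpol K) (m2 t⁻¹ (g * om)) (q3 (g * om)) = t⁻¹ * Ar (dpol K) (m1 t g) (q3 g) := by
    rw [hm2, w3]
    have h := hA (dpol K) (m1 t g) (q3 g) t 1 ht0 one_ne_zero
    rw [one_smul, abs_one, inv_one, mul_one, abs_of_pos ht] at h
    exact h
  have zA1 : zA K t⁻¹ (g * om) = -zB K t g := by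
    unfold zA zB
    rw [a2, hn1, smul_smul, ← neg_smul]
    congr 1
    rw [← hV]
    by_cases hV0 : V = 0
    · rw [hV0]; simp
    · field_simp
  have zB1 : zB K t⁻¹ (g * om) = zA K t g := by
    unfold zA zB
    rw [a1, hn2, smul_smul]
    congr 1
    rw [← hV]
    by_cases hV0 : V = 0
    · rw [hV0]; simp
    · field_simp
  -- the frame after `i`
  have kn1 : n1 t (g * qi) = n2 t g := by
    unfold n1 n2
    rw [i1, i2, smul_neg, sub_eq_add_neg]
  have kn2 : n2 t (g * qi) = n1 t g := by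
    unfold n1 n2
    rw [i1, i2, smul_neg, sub_neg_eq_add]
  have km1 : m1 t (g * qi) = m2 t g := by
    unfold m1 m2
    rw [i1, i2, smul_neg, sub_eq_add_neg]
  have km2 : m2 t (g * qi) = m1 t g := by
    unfold m1 m2
    rw [i1, i2, smul_neg, sub_neg_eq_add]
  have zA2 : zA K t (g * qi) = zB K t g := by
    unfold zA zB
    rw [km2, kn1, i3, ar_neg_right hA]
  have zB2 : zB K t (g * qi) = zA K t g := by
    unfold zA zB
    rw [km1, kn2, i3, ar_neg_right hA]
  refine ⟨?_, ?_, ?_, ?_⟩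
  · unfold zp zm
    rw [zA1, zB1]
    abel
  · unfold zp zm
    rw [zA1, zB1]
    abel
  · unfold zp
    rw [zA2, zB2]
    abel
  · unfold zm
    rw [zA2, zB2]
    abel

end Pool.Agent.Helper28.MK
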